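import Pool.Agent.helper41.Sch.Defs

open scoped Pointwise ContDiff
open MeasureTheory Set Filter Topology

namespace Pool.Agent.helper41.Sch

/-! ## module VO1 -/

theorem Body.add {A A' : Set (P × ℝ)} (hA : Body A) (hA' : Body A') : Body (A + A') :=
  ⟨hA.1.add hA'.1, hA.2.1.add hA'.2.1, hA.2.2.add hA'.2.2⟩

theorem VO_cont (y : P) (s : ℝ) : Continuous (fun x : P × ℝ => dot x.1 y + x.2 * s) := by
  unfold dot; fun_prop

theorem VO_bdd {A : Set (P × ℝ)} (hA : Body A) (y : P) (s : ℝ) :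
    BddAbove ((fun x : P × ℝ => dot x.1 y + x.2 * s) '' A) :=
  (hA.1.image (VO_cont y s)).bddAbove

theorem VO_le_H {A : Set (P × ℝ)} (hA : Body A) {x : P × ℝ} (hx : x ∈ A) (y : P) (s : ℝ) :
    dot x.1 y + x.2 * s ≤ H A y s :=
  le_csSup (VO_bdd hA y s) (mem_image_of_mem _ hx)

theorem VO_attained {A : Set (P × ℝ)} (hA : Body A) (y : P) (s : ℝ) :
    ∃ x ∈ A, dot x.1 y + x.2 * s = H A y s := by
  have h := (hA.1.image (VO_cont y s)).sSup_mem (hA.2.2.image _)
  obtain ⟨x, hx, h⟩ := h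
  exact ⟨x, hx, h⟩

theorem H_add {A A' : Set (P × ℝ)} (hA : Body A) (hA' : Body A') (y : P) (s : ℝ) :
    H (A + A') y s = H A y s + H A' y s := by
  apply le_antisymm
  · obtain ⟨x, hx, h⟩ := VO_attained (hA.add hA') y s
    rw [← h]
    obtain ⟨a, ha, b, hb, rfl⟩ := hx
    have h1 := VO_le_H hA ha y s
    have h2 := VO_le_H hA' hb y s
    simp only [dot, Prod.fst_add, Prod.snd_add] at h1 h2 ⊢
    linarith
  · obtain ⟨a, ha, h1⟩ := VO_attained hA y s
    obtain ⟨b, hb, h2⟩ := VO_attained hA' y s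
    have h3 := VO_le_H (hA.add hA') (add_mem_add ha hb) y s
    simp only [dot, Prod.fst_add, Prod.snd_add] at h1 h2 h3 ⊢
    linarith

theorem F_LC {A : Set (P × ℝ)} (hA : Body A) : LC (F A) := by
  refine ⟨⟨convex_univ, fun y _ z _ a b ha hb hab => ?_⟩, ?_⟩
  · obtain ⟨x, hx, h⟩ := VO_attained hA (a • y + b • z) 1
    unfold F
    rw [← h]
    have h1 := mul_le_mul_of_nonneg_left (VO_le_H hA hx y 1) ha
    have h2 := mul_le_mul_of_nonneg_left (VO_le_H hA hx z 1) hb
    have h3 : x.2 * 1 = a * (x.2 * 1) + b * (x.2 * 1) := by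
      rw [← add_mul, hab, one_mul]
    simp only [smul_eq_mul]
    have h4 : dot x.1 (a • y + b • z) = a * dot x.1 y + b * dot x.1 z := by
      simp only [dot, Prod.fst_add, Prod.snd_add, Prod.smul_fst, Prod.smul_snd, smul_eq_mul]
      ring
    rw [h4]
    linarith
  · obtain ⟨R, hR⟩ := hA.1.isBounded.exists_norm_le
    have hR0 : 0 ≤ R := by
      obtain ⟨x, hx⟩ := hA.2.2
      exact (norm_nonneg x).trans (hR x hx)
    refine ⟨Real.toNNReal (2 * R), ?_⟩
    apply LipschitzWith.of_le_add_mul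
    intro y z
    rw [Real.coe_toNNReal _ (by positivity), dist_eq_norm]
    obtain ⟨x, hx, h⟩ := VO_attained hA y 1
    unfold F
    rw [← h]
    have h1 := VO_le_H hA hx z 1
    have h2 : dot x.1 y = dot x.1 z + x.1.1 * (y - z).1 + x.1.2 * (y - z).2 := by
      simp only [dot, Prod.fst_sub, Prod.snd_sub]
      ring
    have hx1 : ‖x.1‖ ≤ R := (norm_fst_le x).trans (hR x hx)
    have h3 : x.1.1 * (y - z).1 ≤ R * ‖y - z‖ := by
      calc x.1.1 * (y - z).1 ≤ |x.1.1 * (y - z).1| := le_abs_self _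
        _ = |x.1.1| * |(y - z).1| := abs_mul _ _
        _ ≤ R * ‖y - z‖ := mul_le_mul ((norm_fst_le x.1).trans hx1) (norm_fst_le (y - z))
            (abs_nonneg _) hR0
    have h4 : x.1.2 * (y - z).2 ≤ R * ‖y - z‖ := by
      calc x.1.2 * (y - z).2 ≤ |x.1.2 * (y - z).2| := le_abs_self _
        _ = |x.1.2| * |(y - z).2| := abs_mul _ _
        _ ≤ R * ‖y - z‖ := mul_le_mul ((norm_snd_le x.1).trans hx1) (norm_snd_le (y - z))
            (abs_nonneg _) hR0
    linarith

/-! ## module VO2 -/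

theorem VO_dual (f : StrongDual ℝ (P × ℝ)) :
    ∃ (y : P) (s : ℝ), ∀ x : P × ℝ, f x = dot x.1 y + x.2 * s := by
  refine ⟨(f ((1, 0), 0), f ((0, 1), 0)), f ((0, 0), 1), fun x => ?_⟩
  have h1 : x = x.1.1 • (((1, 0), 0) : P × ℝ) + x.1.2 • (((0, 1), 0) : P × ℝ)
      + x.2 • (((0, 0), 1) : P × ℝ) := by
    ext <;> simp
  conv_lhs => rw [h1]
  simp only [map_add, map_smul, dot, smul_eq_mul]

theorem VO_sep {A : Set (P × ℝ)} (hA : Body A) {x : P × ℝ} (hx : x ∉ A) :
    ∃ (y : P) (s : ℝ), H A y s < dot x.1 y + x.2 * s := by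
  obtain ⟨f, u, h1, h2⟩ := geometric_hahn_banach_closed_point hA.2.1 hA.1.isClosed hx
  obtain ⟨y, s, hf⟩ := VO_dual f
  refine ⟨y, s, ?_⟩
  obtain ⟨a, ha, h3⟩ := VO_attained hA y s
  rw [← h3, ← hf, ← hf]
  exact (h1 a ha).trans h2

theorem VO_proj {A : Set (P × ℝ)} (hA : Body A) : Body ((Prod.fst '' A) ×ˢ ({0} : Set ℝ)) := by
  refine ⟨(hA.1.image continuous_fst).prod isCompact_singleton, ?_, ?_⟩
  · refine Convex.prod ?_ (convex_singleton 0)
    exact hA.2.1.linear_image (LinearMap.fst ℝ P ℝ)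
  · obtain ⟨x, hx⟩ := hA.2.2
    exact ⟨(x.1, 0), ⟨⟨x, hx, rfl⟩, rfl⟩⟩

theorem VO_sep_proj {A : Set (P × ℝ)} (hA : Body A) {p : P} (hp : p ∉ Prod.fst '' A) :
    ∃ y : P, H A y 0 < dot p y := by
  have hx : ((p, 0) : P × ℝ) ∉ (Prod.fst '' A) ×ˢ ({0} : Set ℝ) := fun h => hp h.1
  obtain ⟨y, s, h⟩ := VO_sep (VO_proj hA) hx
  refine ⟨y, ?_⟩
  simp only [zero_mul, add_zero] at h
  refine lt_of_le_of_lt ?_ h
  obtain ⟨a, ha, h3⟩ := VO_attained hA y 0
  rw [← h3]
  have := VO_le_H (VO_proj hA) (x := (a.1, 0)) ⟨⟨a, ha, rfl⟩, rfl⟩ y s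
  simp only [zero_mul, mul_zero, add_zero] at this ⊢
  exact this

theorem VO_conj_le {A : Set (P × ℝ)} (hA : Body A) {x : P × ℝ} (hx : x ∈ A) :
    BddAbove (range fun y => dot x.1 y - F A y) ∧ x.2 ≤ -conj (F A) x.1 := by
  have h : ∀ y, dot x.1 y - F A y ≤ -x.2 := by
    intro y
    have := VO_le_H hA hx y 1
    unfold F
    linarith
  refine ⟨⟨-x.2, ?_⟩, ?_⟩
  · rintro _ ⟨y, rfl⟩
    exact h y
  · have : conj (F A) x.1 ≤ -x.2 := ciSup_le h
    linarith

theorem VO_attained_conj {A : Set (P × ℝ)} (hA : Body A) {p : P} (hp : p ∈ Prod.fst '' A) :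
    (p, -conj (F A) p) ∈ A := by
  obtain ⟨x, hx, rfl⟩ := hp
  -- the slice
  set Z : Set ℝ := (fun z : ℝ => (x.1, z)) ⁻¹' A with hZ
  have hZc : IsCompact Z := by
    have h1 : IsClosed Z := hA.1.isClosed.preimage (by fun_prop)
    obtain ⟨R, hR⟩ := hA.1.isBounded.exists_norm_le
    refine (isCompact_Icc (a := -R) (b := R)).of_isClosed_subset h1 ?_
    intro z hz
    have := (norm_snd_le ((x.1, z) : P × ℝ)).trans (hR _ hz)
    rw [Real.norm_eq_abs, abs_le] at this
    exact this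
  have hZn : Z.Nonempty := ⟨x.2, hx⟩
  have hm := hZc.sSup_mem hZn
  set u := sSup Z with hu
  have hmA : (x.1, u) ∈ A := hm
  have h1 : u ≤ -conj (F A) x.1 := (VO_conj_le hA hmA).2
  have h2 : -conj (F A) x.1 ≤ u := by
    by_contra h
    push Not at h
    have hn : ((x.1, -conj (F A) x.1) : P × ℝ) ∉ A := by
      intro h3
      have : -conj (F A) x.1 ≤ u := le_csSup hZc.bddAbove h3
      linarith
    obtain ⟨z, hz1, hz2⟩ := exists_between h
    have hn' : ((x.1, z) : P × ℝ) ∉ A := by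
      intro h3
      have : z ≤ u := le_csSup hZc.bddAbove h3
      linarith
    obtain ⟨y, s, hys⟩ := VO_sep hA hn'
    have h4 := VO_le_H hA hmA y s
    have hs : 0 < s := by
      have h5 : u * s < z * s := by
        simp only at h4 hys
        linarith
      by_contra h6
      push Not at h6
      nlinarith
    have h5 : F A (s⁻¹ • y) < dot x.1 (s⁻¹ • y) + z := by
      unfold F
      obtain ⟨a, ha, h6⟩ := VO_attained hA (s⁻¹ • y) 1
      rw [← h6]
      have h7 := lt_of_le_of_lt (VO_le_H hA ha y s) hys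
      have h8 : ∀ v : P, dot v (s⁻¹ • y) = s⁻¹ * dot v y := by
        intro v
        simp only [dot, Prod.smul_fst, Prod.smul_snd, smul_eq_mul]
        ring
      rw [h8, h8]
      have h9 := mul_lt_mul_of_pos_left h7 (inv_pos.2 hs)
      have h10 : s⁻¹ * (dot a.1 y + a.2 * s) = s⁻¹ * dot a.1 y + a.2 * 1 := by
        field_simp
      have h11 : s⁻¹ * (dot x.1 y + z * s) = s⁻¹ * dot x.1 y + z := by
        field_simp
      simp only at h9
      rw [h10, h11] at h9
      exact h9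
    have h6 : dot x.1 (s⁻¹ • y) - F A (s⁻¹ • y) ≤ conj (F A) x.1 :=
      le_ciSup (VO_conj_le hA hx).1 (s⁻¹ • y)
    linarith
  have h3 : u = -conj (F A) x.1 := le_antisymm h1 h2
  rw [← h3]
  exact hmA

theorem VO_conj_off {A : Set (P × ℝ)} (hA : Body A) {p : P} (hp : p ∉ Prod.fst '' A) :
    conj (F A) p = 0 := by
  obtain ⟨y, hy⟩ := VO_sep_proj hA hp
  apply Real.iSup_of_not_bddAbove
  rintro ⟨M, hM⟩
  obtain ⟨R, hR⟩ := hA.1.isBounded.exists_norm_le
  set δ := dot p y - H A y 0 with hδ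
  have hδ0 : 0 < δ := by linarith
  have h : ∀ t : ℝ, 0 ≤ t → t * δ - R ≤ M := by
    intro t ht
    have h1 := hM ⟨t • y, rfl⟩
    simp only at h1
    obtain ⟨a, ha, h2⟩ := VO_attained hA (t • y) 1
    have h3 := VO_le_H hA ha y 0
    have h4 : a.2 ≤ R := by
      have := (norm_snd_le a).trans (hR a ha)
      rw [Real.norm_eq_abs, abs_le] at this
      exact this.2
    have h5 : ∀ v : P, dot v (t • y) = t * dot v y := by
      intro v
      simp only [dot, Prod.smul_fst, Prod.smul_snd, smul_eq_mul]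
      ring
    have h6 : F A (t • y) = t * dot a.1 y + a.2 := by
      unfold F
      rw [← h2, h5]
      ring
    rw [h5, h6] at h1
    have h7 := mul_le_mul_of_nonneg_left h3 ht
    simp only [mul_zero, add_zero] at h7
    have h8 : t * δ = t * dot p y - t * H A y 0 := by rw [hδ]; ring
    linarith
  have h1 := h ((|M| + |R| + 1) / δ) (by positivity)
  rw [div_mul_cancel₀ _ hδ0.ne'] at h1
  have h2 := le_abs_self M
  have h3 := le_abs_self R
  linarith

theorem VO_subset {A A' : Set (P × ℝ)} (hA : Body A) (hA' : Body A') {φ : P → ℝ} (hφ : Test φ)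
    (h : ∀ y s, H A' y s = H A y s + tilde φ y s) : A ⊆ A' := by
  intro x hx
  by_contra hx'
  obtain ⟨y, s, hys⟩ := VO_sep hA' hx'
  have h1 := VO_le_H hA hx y s
  have h2 : 0 ≤ tilde φ y s := by
    unfold tilde
    split_ifs with hs
    · exact mul_nonneg hs.le (hφ.2 _)
    · exact le_rfl
  rw [h y s] at hys
  linarith

theorem VO_proj_eq {A A' : Set (P × ℝ)} (hA : Body A) (hA' : Body A') {φ : P → ℝ} (hφ : Test φ)
    (h : ∀ y s, H A' y s = H A y s + tilde φ y s) : Prod.fst '' A' = Prod.fst '' A := by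
  apply Subset.antisymm
  · rintro _ ⟨x, hx, rfl⟩
    by_contra hp
    obtain ⟨y, hy⟩ := VO_sep_proj hA hp
    have h1 := VO_le_H hA' hx y 0
    have h2 := h y 0
    simp only [tilde, lt_irrefl, if_false, add_zero] at h2
    rw [h2] at h1
    simp only [mul_zero, add_zero] at h1
    linarith
  · exact image_mono (VO_subset hA hA' hφ h)

theorem VO_slice {A A' : Set (P × ℝ)} (hA : Body A) (hA' : Body A') {φ : P → ℝ} (hφ : Test φ)
    (h : ∀ y s, H A' y s = H A y s + tilde φ y s) {p : P} (hp : p ∈ Prod.fst '' A) :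
    Prod.mk p ⁻¹' (A' \ A) = Ioc (-conj (F A) p) (-conj (F A') p) := by
  have hp' : p ∈ Prod.fst '' A' := by rw [VO_proj_eq hA hA' hφ h]; exact hp
  ext z
  simp only [mem_preimage, mem_diff, mem_Ioc]
  constructor
  · rintro ⟨h1, h2⟩
    refine ⟨?_, (VO_conj_le hA' h1).2⟩
    by_contra h3
    push Not at h3
    obtain ⟨y, s, hys⟩ := VO_sep hA h2
    have h4 := VO_le_H hA (VO_attained_conj hA hp) y s
    have h5 := VO_le_H hA' h1 y s
    rw [h y s] at h5
    simp only at h4 h5 hys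
    have hs : ¬ 0 < s := by
      intro hs
      have : z * s ≤ -conj (F A) p * s := mul_le_mul_of_nonneg_right h3 hs.le
      linarith
    simp only [tilde, hs, if_false, add_zero] at h5
    linarith
  · rintro ⟨h1, h2⟩
    constructor
    · have h3 := VO_subset hA hA' hφ h (VO_attained_conj hA hp)
      have h4 := VO_attained_conj hA' hp'
      have h5 : ((p, z) : P × ℝ) ∈ segment ℝ (p, -conj (F A) p) (p, -conj (F A') p) := by
        have h6 : z ∈ segment ℝ (-conj (F A) p) (-conj (F A') p) := by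
          rw [segment_eq_Icc (h1.le.trans h2)]
          exact ⟨h1.le, h2⟩
        obtain ⟨a, b, ha, hb, hab, h7⟩ := h6
        refine ⟨a, b, ha, hb, hab, ?_⟩
        ext
        · simp only [Prod.smul_mk, Prod.mk_add_mk, Prod.smul_fst, Prod.fst_add, smul_eq_mul]
          rw [← add_mul, hab, one_mul]
        · simp only [Prod.smul_mk, Prod.mk_add_mk, Prod.smul_snd, Prod.snd_add, smul_eq_mul]
          rw [← add_mul, hab, one_mul]
        · exact h7
      exact hA'.2.1.segment_subset h3 h4 h5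
    · intro h3
      have := (VO_conj_le hA h3).2
      simp only at this
      linarith

theorem volume_sub {A A' : Set (P × ℝ)} (hA : Body A) (hA' : Body A') {φ : P → ℝ} (hφ : Test φ)
    (h : ∀ y s, H A' y s = H A y s + tilde φ y s) :
    (volume A').toReal - (volume A).toReal = ∫ p, (conj (F A) p - conj (F A') p) := by
  have hsub := VO_subset hA hA' hφ h
  have hmeas : MeasurableSet (A' \ A) := hA'.1.isClosed.measurableSet.diff hA.1.isClosed.measurableSet
  have hfin : volume A' ≠ ⊤ := hA'.1.measure_lt_top.ne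
  have hfinA : volume A ≠ ⊤ := hA.1.measure_lt_top.ne
  have h1 : (volume (A' \ A)).toReal = (volume A').toReal - (volume A).toReal := by
    rw [measure_diff hsub hA.1.isClosed.measurableSet.nullMeasurableSet hfinA,
      ENNReal.toReal_sub_of_le (measure_mono hsub) hfin]
  rw [← h1]
  have h2 : ∀ p : P, conj (F A) p - conj (F A') p = (volume (Prod.mk p ⁻¹' (A' \ A))).toReal := by
    intro p
    by_cases hp : p ∈ Prod.fst '' A
    · rw [VO_slice hA hA' hφ h hp, Real.volume_Ioc, ENNReal.toReal_ofReal]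
      · ring
      · have h3 := VO_subset hA hA' hφ h (VO_attained_conj hA hp)
        have h4 := (VO_conj_le hA' h3).2
        simp only at h4
        linarith
    · have hp' : p ∉ Prod.fst '' A' := by rw [VO_proj_eq hA hA' hφ h]; exact hp
      rw [VO_conj_off hA hp, VO_conj_off hA' hp']
      have : Prod.mk p ⁻¹' (A' \ A) = ∅ := by
        apply eq_empty_of_forall_notMem
        intro z hz
        exact hp' ⟨(p, z), hz.1, rfl⟩
      rw [this]
      simp
  have h3 : (volume : Measure (P × ℝ)) (A' \ A) = ∫⁻ p, volume (Prod.mk p ⁻¹' (A' \ A)) := by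
    rw [Measure.volume_eq_prod, Measure.prod_apply hmeas]
  have h4 : (∫⁻ p, volume (Prod.mk p ⁻¹' (A' \ A))) ≠ ⊤ := by
    rw [← h3]
    exact ((measure_mono diff_subset).trans_lt hA'.1.measure_lt_top).ne
  rw [funext h2, integral_toReal]
  · rw [h3]
  · exact (measurable_measure_prodMk_left hmeas).aemeasurable
  · exact ae_lt_top (measurable_measure_prodMk_left hmeas) h4

end Pool.Agent.helper41.Sch
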