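import Pool.Agent.helper41.Sch.Defs

open scoped Pointwise ContDiff
open MeasureTheory Set Filter Topology

namespace Pool.Agent.helper41.Sch

/-- the gradient map -/
noncomputable def AL2_grad (h : P → ℝ) (x : P) : P := (fderiv ℝ h x (1, 0), fderiv ℝ h x (0, 1))

theorem AL2_fderiv_apply {h : P → ℝ} (x v : P) :
    fderiv ℝ h x v = dot (AL2_grad h x) v := by
  have h1 : v = v.1 • ((1 : ℝ), (0 : ℝ)) + v.2 • ((0 : ℝ), (1 : ℝ)) := by
    ext <;> simp
  conv_lhs => rw [h1]
  simp only [map_add, map_smul, AL2_grad, dot, smul_eq_mul]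
  ring

theorem AL2_d1 {h : P → ℝ} {x : P} (hh : DifferentiableAt ℝ h x) :
    d1 h x = fderiv ℝ h x (1, 0) := by
  unfold d1
  exact hh.lineDeriv_eq_fderiv

theorem AL2_d2 {h : P → ℝ} {x : P} (hh : DifferentiableAt ℝ h x) :
    d2 h x = fderiv ℝ h x (0, 1) := by
  unfold d2
  exact hh.lineDeriv_eq_fderiv

/-- convexity inequality for a differentiable convex function -/
theorem AL2_convex_ineq {f : P → ℝ} (hf : Differentiable ℝ f) (hc : ConvexOn ℝ univ f) (x y : P) :
    f x + dot (AL2_grad f x) (y - x) ≤ f y := by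
  rw [← AL2_fderiv_apply]
  have h1 : HasDerivAt (fun t : ℝ => f (x + t • (y - x))) (fderiv ℝ f x (y - x)) 0 := by
    have h2 : HasFDerivAt f (fderiv ℝ f x) (x + (0 : ℝ) • (y - x)) := by
      simpa using (hf x).hasFDerivAt
    have h3 : HasDerivAt (fun t : ℝ => x + t • (y - x)) (y - x) 0 := by
      simpa using ((hasDerivAt_id (0 : ℝ)).smul_const (y - x)).const_add x
    exact h2.comp_hasDerivAt (0 : ℝ) h3
  have hcv : ConvexOn ℝ univ (fun t : ℝ => f (x + t • (y - x))) := by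
    refine ⟨convex_univ, fun s _ t _ a b ha hb hab => ?_⟩
    have := hc.2 (mem_univ (x + s • (y - x))) (mem_univ (x + t • (y - x))) ha hb hab
    have h4 : a • (x + s • (y - x)) + b • (x + t • (y - x)) = x + (a • s + b • t) • (y - x) := by
      have : (a + b) • x = x := by rw [hab, one_smul]
      calc a • (x + s • (y - x)) + b • (x + t • (y - x))
          = (a + b) • x + (a * s + b * t) • (y - x) := by module
        _ = _ := by rw [this]; simp
    rw [h4] at this
    exact this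
  have h5 := hcv.le_slope_of_hasDerivAt (mem_univ (0 : ℝ)) (mem_univ (1 : ℝ)) zero_lt_one h1
  simp only [slope, vsub_eq_sub, sub_zero, inv_one, one_smul, zero_smul, add_zero,
    add_sub_cancel] at h5
  linarith

/-- square of the Euclidean norm -/
def AL2_q (y : P) : ℝ := y.1 ^ 2 + y.2 ^ 2

theorem AL2_hasFDerivAt_q (x : P) :
    HasFDerivAt (fun y : P => y.1 ^ 2 + y.2 ^ 2)
      ((2 * x.1) • ContinuousLinearMap.fst ℝ ℝ ℝ + (2 * x.2) • ContinuousLinearMap.snd ℝ ℝ ℝ) x := by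
  have h1 : HasFDerivAt (fun y : P => y.1) (ContinuousLinearMap.fst ℝ ℝ ℝ) x := hasFDerivAt_fst
  have h2 : HasFDerivAt (fun y : P => y.2) (ContinuousLinearMap.snd ℝ ℝ ℝ) x := hasFDerivAt_snd
  refine ((h1.pow 2).add (h2.pow 2)).congr_fderiv ?_
  simp

/-- the strong convexity inequality -/
theorem AL2_SC {h : P → ℝ} (hh : Differentiable ℝ h) {c : ℝ}
    (hcv : ConvexOn ℝ univ (fun y : P => h y - c * (y.1 ^ 2 + y.2 ^ 2))) (x y : P) :
    h x + dot (AL2_grad h x) (y - x) + c * AL2_q (y - x) ≤ h y := by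
  have hd : Differentiable ℝ (fun y : P => h y - c * (y.1 ^ 2 + y.2 ^ 2)) := by
    intro x
    exact (hh x).sub ((AL2_hasFDerivAt_q x).differentiableAt.const_mul c)
  have h1 := AL2_convex_ineq hd hcv x y
  have h2 : AL2_grad (fun y : P => h y - c * (y.1 ^ 2 + y.2 ^ 2)) x
      = ((AL2_grad h x).1 - 2 * c * x.1, (AL2_grad h x).2 - 2 * c * x.2) := by
    have h3 : HasFDerivAt (fun y : P => h y - c * (y.1 ^ 2 + y.2 ^ 2)) (fderiv ℝ h x -
      c • ((2 * x.1) • ContinuousLinearMap.fst ℝ ℝ ℝ + (2 * x.2) • ContinuousLinearMap.snd ℝ ℝ ℝ)) x :=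
      (hh x).hasFDerivAt.sub ((AL2_hasFDerivAt_q x).const_mul c)
    unfold AL2_grad
    rw [h3.fderiv]
    ext <;> simp <;> ring
  rw [h2] at h1
  simp only [dot, AL2_q, Prod.fst_sub, Prod.snd_sub] at h1 ⊢
  nlinarith [h1]

theorem AL2_argmin_of_grad {h : P → ℝ} (hh : Differentiable ℝ h) {c : ℝ} (hc : 0 < c)
    (hcv : ConvexOn ℝ univ (fun y : P => h y - c * (y.1 ^ 2 + y.2 ^ 2))) (x : P) :
    IsArgmin h (AL2_grad h x) x := by
  intro z
  have h1 := AL2_SC hh hcv x z
  have h2 : 0 ≤ c * AL2_q (z - x) := by unfold AL2_q; positivity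
  simp only [dot, Prod.fst_sub, Prod.snd_sub] at h1 ⊢
  linarith

theorem AL2_grad_of_argmin {h : P → ℝ} (hh : Differentiable ℝ h) {p x : P}
    (hx : IsArgmin h p x) : AL2_grad h x = p := by
  have h1 : IsLocalMin (fun y => h y - dot p y) x := Filter.Eventually.of_forall fun z => hx z
  have hdot : HasFDerivAt (fun y => dot p y)
      (p.1 • ContinuousLinearMap.fst ℝ ℝ ℝ + p.2 • ContinuousLinearMap.snd ℝ ℝ ℝ) x := by
    have h1 : HasFDerivAt (fun y : P => y.1) (ContinuousLinearMap.fst ℝ ℝ ℝ) x := hasFDerivAt_fst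
    have h2 : HasFDerivAt (fun y : P => y.2) (ContinuousLinearMap.snd ℝ ℝ ℝ) x := hasFDerivAt_snd
    exact (h1.const_mul p.1).add (h2.const_mul p.2)
  have h2 := h1.hasFDerivAt_eq_zero ((hh x).hasFDerivAt.sub hdot)
  have h3 := DFunLike.congr_fun h2 ((1 : ℝ), (0 : ℝ))
  have h4 := DFunLike.congr_fun h2 ((0 : ℝ), (1 : ℝ))
  simp only [ContinuousLinearMap.sub_apply, ContinuousLinearMap.add_apply,
    ContinuousLinearMap.smul_apply, ContinuousLinearMap.coe_fst', ContinuousLinearMap.coe_snd',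
    smul_eq_mul, mul_one, mul_zero, add_zero, zero_add, ContinuousLinearMap.zero_apply] at h3 h4
  unfold AL2_grad
  ext
  · simp only; linarith
  · simp only; linarith

theorem AL2_mono {h : P → ℝ} (hh : Differentiable ℝ h) {c : ℝ}
    (hcv : ConvexOn ℝ univ (fun y : P => h y - c * (y.1 ^ 2 + y.2 ^ 2))) (x y : P) :
    2 * c * AL2_q (y - x) ≤ dot (AL2_grad h y - AL2_grad h x) (y - x) := by
  have h1 := AL2_SC hh hcv x y
  have h2 := AL2_SC hh hcv y x
  simp only [dot, AL2_q, Prod.fst_sub, Prod.snd_sub] at h1 h2 ⊢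
  nlinarith [h1, h2]

theorem AL2_exists {h : P → ℝ} (hh : Differentiable ℝ h) {c : ℝ} (hc : 0 < c)
    (hcv : ConvexOn ℝ univ (fun y : P => h y - c * (y.1 ^ 2 + y.2 ^ 2))) (p : P) :
    ∃ y, IsArgmin h p y := by
  have hcont : Continuous (fun y => h y - dot p y) := by
    have : Continuous h := hh.continuous
    unfold dot
    fun_prop
  set a : P := AL2_grad h 0 - p
  have hlow : ∀ y : P, h 0 - ‖a.1‖ * ‖y‖ - ‖a.2‖ * ‖y‖ + c * ‖y‖ ^ 2 ≤ h y - dot p y := by
    intro y
    have h1 := AL2_SC hh hcv 0 y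
    have h2 : ‖y‖ ^ 2 ≤ AL2_q y := by
      unfold AL2_q
      rw [Prod.norm_def]
      rcases max_cases ‖y.1‖ ‖y.2‖ with ⟨h, _⟩ | ⟨h, _⟩ <;> rw [h, Real.norm_eq_abs, sq_abs] <;>
        nlinarith [sq_nonneg y.1, sq_nonneg y.2]
    have h3 : -(‖a.1‖ * ‖y‖) ≤ a.1 * y.1 := by
      have := mul_le_mul_of_nonneg_left (norm_fst_le y) (norm_nonneg a.1)
      have h4 : |a.1 * y.1| ≤ ‖a.1‖ * ‖y‖ := by
        rw [abs_mul]; exact this
      exact (abs_le.1 h4).1
    have h4 : -(‖a.2‖ * ‖y‖) ≤ a.2 * y.2 := by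
      have := mul_le_mul_of_nonneg_left (norm_snd_le y) (norm_nonneg a.2)
      have h4 : |a.2 * y.2| ≤ ‖a.2‖ * ‖y‖ := by
        rw [abs_mul]; exact this
      exact (abs_le.1 h4).1
    have h5 : c * ‖y‖ ^ 2 ≤ c * AL2_q y := mul_le_mul_of_nonneg_left h2 hc.le
    have h6 : a.1 * y.1 + a.2 * y.2 = dot (AL2_grad h 0) y - dot p y := by
      simp only [a, dot, Prod.fst_sub, Prod.snd_sub]; ring
    simp only [sub_zero] at h1
    linarith
  have htend : Tendsto (fun y => h y - dot p y) (cocompact P) atTop := by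
    have h1 : Tendsto (fun t : ℝ => h 0 - ‖a.1‖ * t - ‖a.2‖ * t + c * t ^ 2) atTop atTop := by
      have h2 : (fun t : ℝ => h 0 - ‖a.1‖ * t - ‖a.2‖ * t + c * t ^ 2) =
          fun t => h 0 + t * (c * t - (‖a.1‖ + ‖a.2‖)) := by
        funext t; ring
      rw [h2]
      apply tendsto_atTop_add_const_left
      apply Tendsto.atTop_mul_atTop₀ tendsto_id
      apply tendsto_atTop_add_const_right
      exact Tendsto.const_mul_atTop hc tendsto_id
    exact tendsto_atTop_mono hlow (h1.comp tendsto_norm_cocompact_atTop)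
  obtain ⟨y, hy⟩ := hcont.exists_forall_le htend
  exact ⟨y, hy⟩

theorem AL2_unique {h : P → ℝ} (hh : Differentiable ℝ h) {c : ℝ} (hc : 0 < c)
    (hcv : ConvexOn ℝ univ (fun y : P => h y - c * (y.1 ^ 2 + y.2 ^ 2))) {p y y' : P}
    (hy : IsArgmin h p y) (hy' : IsArgmin h p y') : y' = y := by
  have h1 := AL2_mono hh hcv y y'
  rw [AL2_grad_of_argmin hh hy, AL2_grad_of_argmin hh hy'] at h1
  simp only [sub_self, dot, Prod.fst_zero, Prod.snd_zero, zero_mul, add_zero] at h1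
  have h2 : AL2_q (y' - y) ≤ 0 := by
    by_contra h
    push Not at h
    have : 0 < 2 * c * AL2_q (y' - y) := by positivity
    linarith
  unfold AL2_q at h2
  simp only [Prod.fst_sub, Prod.snd_sub] at h2
  have h3 : (y'.1 - y.1) ^ 2 = 0 := by nlinarith [sq_nonneg (y'.1 - y.1), sq_nonneg (y'.2 - y.2)]
  have h4 : (y'.2 - y.2) ^ 2 = 0 := by nlinarith [sq_nonneg (y'.1 - y.1), sq_nonneg (y'.2 - y.2)]
  have h5 := pow_eq_zero_iff (two_ne_zero) |>.1 h3
  have h6 := pow_eq_zero_iff (two_ne_zero) |>.1 h4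
  ext
  · linarith
  · linarith

theorem AL2_sel {φ h : P → ℝ} (hh : Differentiable ℝ h) {c : ℝ} (hc : 0 < c)
    (hcv : ConvexOn ℝ univ (fun y : P => h y - c * (y.1 ^ 2 + y.2 ^ 2))) {p y : P}
    (hy : IsArgmin h p y) : sel φ h p = φ y := by
  have : {y | IsArgmin h p y} = {y} := by
    ext y'
    simp only [mem_setOf_eq, mem_singleton_iff]
    exact ⟨fun h => AL2_unique hh hc hcv hy h, fun h => by rw [h]; exact hy⟩
  unfold sel
  rw [this, image_singleton, csSup_singleton]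

/-- the derivative of the gradient map -/
noncomputable def AL2_D (h : P → ℝ) (x : P) : P →L[ℝ] P :=
  (fderiv ℝ (fun y => fderiv ℝ h y (1, 0)) x).prod (fderiv ℝ (fun y => fderiv ℝ h y (0, 1)) x)

theorem AL2_smooth_fderiv {h : P → ℝ} (hh : ContDiff ℝ ∞ h) (v : P) :
    ContDiff ℝ ∞ (fun y => fderiv ℝ h y v) :=
  (hh.fderiv_right (m := ∞) (by simp)).clm_apply contDiff_const

theorem AL2_hasFDerivAt {h : P → ℝ} (hh : ContDiff ℝ ∞ h) (x : P) :
    HasFDerivAt (AL2_grad h) (AL2_D h x) x := by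
  have h1 := ((AL2_smooth_fderiv hh (1, 0)).differentiable (by simp) x).hasFDerivAt
  have h2 := ((AL2_smooth_fderiv hh (0, 1)).differentiable (by simp) x).hasFDerivAt
  exact h1.prodMk h2

theorem AL2_d1_fun {h : P → ℝ} (hh : Differentiable ℝ h) :
    d1 h = fun x => fderiv ℝ h x (1, 0) := funext fun x => AL2_d1 (hh x)

theorem AL2_d2_fun {h : P → ℝ} (hh : Differentiable ℝ h) :
    d2 h = fun x => fderiv ℝ h x (0, 1) := funext fun x => AL2_d2 (hh x)

theorem AL2_symm {h : P → ℝ} (hh : ContDiff ℝ ∞ h) (x v w : P) :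
    fderiv ℝ (fun y => fderiv ℝ h y v) x w = fderiv ℝ (fun y => fderiv ℝ h y w) x v := by
  have h0 : DifferentiableAt ℝ (fderiv ℝ h) x :=
    ((hh.fderiv_right (m := ∞) (by simp)).differentiable (by simp)) x
  have h1 : ∀ v : P, fderiv ℝ (fun y => fderiv ℝ h y v) x = (fderiv ℝ (fderiv ℝ h) x).flip v := by
    intro v
    rw [fderiv_clm_apply h0 (differentiableAt_const v)]
    simp
  rw [h1, h1]
  simp only [ContinuousLinearMap.flip_apply]
  refine (hh.contDiffAt.isSymmSndFDerivAt ?_) w v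
  rw [minSmoothness_of_isRCLikeNormedField]
  exact WithTop.coe_le_coe.2 le_top

theorem AL2_det (h : P → ℝ) (x : P) : (AL2_D h x).det =
    fderiv ℝ (fun y => fderiv ℝ h y (1, 0)) x (1, 0) * fderiv ℝ (fun y => fderiv ℝ h y (0, 1)) x (0, 1)
    - fderiv ℝ (fun y => fderiv ℝ h y (1, 0)) x (0, 1) *
      fderiv ℝ (fun y => fderiv ℝ h y (0, 1)) x (1, 0) := by
  rw [ContinuousLinearMap.det, ← LinearMap.det_toMatrix (Module.Basis.finTwoProd ℝ), Matrix.det_fin_two]
  simp [LinearMap.toMatrix_apply, AL2_D]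


theorem AL2_quad_nonneg {h : P → ℝ} (hh : ContDiff ℝ ∞ h) {c : ℝ} (hc : 0 < c)
    (hcv : ConvexOn ℝ univ (fun y : P => h y - c * (y.1 ^ 2 + y.2 ^ 2))) (x v : P) :
    2 * c * AL2_q v ≤ dot (AL2_D h x v) v := by
  have h1 : HasDerivAt (fun t : ℝ => AL2_grad h (x + t • v)) (AL2_D h x v) 0 := by
    have h2 : HasFDerivAt (AL2_grad h) (AL2_D h x) (x + (0 : ℝ) • v) := by
      simpa using AL2_hasFDerivAt hh x
    have h3 : HasDerivAt (fun t : ℝ => x + t • v) v 0 := by
      simpa using ((hasDerivAt_id (0 : ℝ)).smul_const v).const_add x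
    exact h2.comp_hasDerivAt (0 : ℝ) h3
  have h2 := h1.tendsto_slope
  have h3 : Tendsto (fun t : ℝ => dot (slope (fun t : ℝ => AL2_grad h (x + t • v)) 0 t) v)
      (𝓝[>] 0) (𝓝 (dot (AL2_D h x v) v)) := by
    have hcont : Continuous (fun z : P => dot z v) := by unfold dot; fun_prop
    exact (hcont.tendsto _).comp (h2.mono_left (nhdsWithin_mono _ (fun t ht => ne_of_gt ht)))
  refine ge_of_tendsto h3 ?_
  filter_upwards [self_mem_nhdsWithin] with t ht
  have ht : 0 < t := ht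
  have h4 := AL2_mono (hh.differentiable (by simp)) hcv x (x + t • v)
  rw [add_sub_cancel_left] at h4
  have h5 : AL2_q (t • v) = t ^ 2 * AL2_q v := by
    unfold AL2_q
    simp only [Prod.smul_fst, Prod.smul_snd, smul_eq_mul]
    ring
  rw [h5] at h4
  simp only [slope, vsub_eq_sub, sub_zero, zero_smul, add_zero]
  have h6 : dot (AL2_grad h (x + t • v) - AL2_grad h x) (t • v)
      = t ^ 2 * dot (t⁻¹ • (AL2_grad h (x + t • v) - AL2_grad h x)) v := by
    simp only [dot, Prod.smul_fst, Prod.smul_snd, smul_eq_mul]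
    field_simp
  rw [h6] at h4
  have h7 : 0 < t ^ 2 := by positivity
  have h8 : t ^ 2 * (2 * c * AL2_q v) ≤ t ^ 2 * dot (t⁻¹ • (AL2_grad h (x + t • v) - AL2_grad h x)) v := by
    linarith
  exact le_of_mul_le_mul_left h8 h7

theorem AL2_det_nonneg {h : P → ℝ} (hh : ContDiff ℝ ∞ h) {c : ℝ} (hc : 0 < c)
    (hcv : ConvexOn ℝ univ (fun y : P => h y - c * (y.1 ^ 2 + y.2 ^ 2))) (x : P) :
    0 ≤ (AL2_D h x).det := by
  rw [AL2_det]
  have hs := AL2_symm hh x (1, 0) (0, 1)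
  have hq : ∀ a b : ℝ, dot (AL2_D h x (a, b)) (a, b) =
      fderiv ℝ (fun y => fderiv ℝ h y (1, 0)) x (1, 0) * a ^ 2 +
      2 * fderiv ℝ (fun y => fderiv ℝ h y (1, 0)) x (0, 1) * a * b +
      fderiv ℝ (fun y => fderiv ℝ h y (0, 1)) x (0, 1) * b ^ 2 := by
    intro a b
    have h1 : ((a, b) : P) = a • ((1 : ℝ), (0 : ℝ)) + b • ((0 : ℝ), (1 : ℝ)) := by
      ext <;> simp
    unfold AL2_D
    rw [h1]
    simp only [dot, ContinuousLinearMap.prod_apply, map_add, map_smul, smul_eq_mul]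
    simp only [Prod.smul_mk, smul_eq_mul, mul_one, mul_zero, Prod.mk_add_mk, add_zero, zero_add]
    rw [← hs]
    ring
  have h1 := fun a b : ℝ => AL2_quad_nonneg hh hc hcv x (a, b)
  simp only [hq, AL2_q] at h1
  rw [← hs]
  set A := fderiv ℝ (fun y => fderiv ℝ h y (1, 0)) x (1, 0)
  set B := fderiv ℝ (fun y => fderiv ℝ h y (1, 0)) x (0, 1)
  set C := fderiv ℝ (fun y => fderiv ℝ h y (0, 1)) x (0, 1)
  have h2 := h1 1 0
  have h3 := h1 B (-A)
  have h4 : 0 < A := by nlinarith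
  have h5 : 0 ≤ A * (A * C - B * B) := by
    have : 0 ≤ 2 * c * (B ^ 2 + (-A) ^ 2) := by positivity
    nlinarith
  exact nonneg_of_mul_nonneg_right h5 h4

theorem alexandrov_smooth {φ h : P → ℝ} (hφ : Cc φ) (hh : ContDiff ℝ ∞ h) {c : ℝ} (hc : 0 < c)
    (hcv : ConvexOn ℝ univ (fun y : P => h y - c * (y.1 ^ 2 + y.2 ^ 2))) :
    (∀ p, ∃ y, IsArgmin h p y ∧ ∀ y', IsArgmin h p y' → y' = y) ∧ Continuous (sel φ h) ∧
      ∫ p, sel φ h p = ∫ x, φ x * (d1 (d1 h) x * d2 (d2 h) x - (d1 (d2 h) x) ^ 2) := by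
  have hd : Differentiable ℝ h := hh.differentiable (by simp)
  have hex := AL2_exists hd hc hcv
  refine ⟨fun p => ?_, ?_, ?_⟩
  · obtain ⟨y, hy⟩ := hex p
    exact ⟨y, hy, fun y' hy' => AL2_unique hd hc hcv hy hy'⟩
  · choose Y hY using hex
    have hsel : sel φ h = φ ∘ Y := funext fun p => AL2_sel hd hc hcv (hY p)
    rw [hsel]
    refine hφ.1.continuous.comp ?_
    -- Lipschitz
    have hL : ∀ p p' : P, ‖Y p - Y p'‖ ≤ (1 / c) * ‖p - p'‖ := by
      intro p p'
      have h1 := AL2_mono hd hcv (Y p') (Y p)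
      rw [AL2_grad_of_argmin hd (hY p), AL2_grad_of_argmin hd (hY p')] at h1
      have h2 : ‖Y p - Y p'‖ ^ 2 ≤ AL2_q (Y p - Y p') := by
        unfold AL2_q
        rw [Prod.norm_def]
        rcases max_cases ‖(Y p - Y p').1‖ ‖(Y p - Y p').2‖ with ⟨h, _⟩ | ⟨h, _⟩ <;>
          rw [h, Real.norm_eq_abs, sq_abs] <;>
          nlinarith [sq_nonneg (Y p - Y p').1, sq_nonneg (Y p - Y p').2]
      have h3 : dot (p - p') (Y p - Y p') ≤ 2 * ‖p - p'‖ * ‖Y p - Y p'‖ := by
        unfold dot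
        have e1 : (p - p').1 * (Y p - Y p').1 ≤ ‖p - p'‖ * ‖Y p - Y p'‖ := by
          calc (p - p').1 * (Y p - Y p').1 ≤ |(p - p').1 * (Y p - Y p').1| := le_abs_self _
            _ = |(p - p').1| * |(Y p - Y p').1| := abs_mul _ _
            _ ≤ _ := mul_le_mul (norm_fst_le (p - p')) (norm_fst_le (Y p - Y p'))
              (abs_nonneg _) (norm_nonneg _)
        have e2 : (p - p').2 * (Y p - Y p').2 ≤ ‖p - p'‖ * ‖Y p - Y p'‖ := by
          calc (p - p').2 * (Y p - Y p').2 ≤ |(p - p').2 * (Y p - Y p').2| := le_abs_self _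
            _ = |(p - p').2| * |(Y p - Y p').2| := abs_mul _ _
            _ ≤ _ := mul_le_mul (norm_snd_le (p - p')) (norm_snd_le (Y p - Y p'))
              (abs_nonneg _) (norm_nonneg _)
        linarith
      have h4 : 2 * c * ‖Y p - Y p'‖ ^ 2 ≤ 2 * ‖p - p'‖ * ‖Y p - Y p'‖ :=
        le_trans (mul_le_mul_of_nonneg_left h2 (by positivity)) (le_trans h1 h3)
      rcases (norm_nonneg (Y p - Y p')).eq_or_lt with h5 | h5
      · rw [← h5]; positivity
      · have h6 : c * ‖Y p - Y p'‖ ≤ ‖p - p'‖ := by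
          by_contra h
          push Not at h
          nlinarith
        rw [one_div, inv_mul_eq_div, le_div_iff₀ hc]
        linarith
    have : LipschitzWith (Real.toNNReal (1 / c)) Y := by
      apply LipschitzWith.of_dist_le_mul
      intro p p'
      rw [dist_eq_norm, dist_eq_norm, Real.coe_toNNReal _ (by positivity)]
      exact hL p p'
    exact this.continuous
  · have hinj : InjOn (AL2_grad h) univ := by
      intro x _ y _ hxy
      have h1 := AL2_argmin_of_grad hd hc hcv x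
      have h2 := AL2_argmin_of_grad hd hc hcv y
      rw [hxy] at h1
      exact AL2_unique hd hc hcv h2 h1
    have himg : AL2_grad h '' univ = univ := by
      apply eq_univ_of_forall
      intro p
      obtain ⟨y, hy⟩ := hex p
      exact ⟨y, mem_univ _, AL2_grad_of_argmin hd hy⟩
    have h1 := integral_image_eq_integral_abs_det_fderiv_smul (volume : Measure P)
      MeasurableSet.univ (fun x _ => (AL2_hasFDerivAt hh x).hasFDerivWithinAt) hinj (sel φ h)
    rw [himg, setIntegral_univ, setIntegral_univ] at h1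
    rw [h1]
    congr 1
    funext x
    rw [abs_of_nonneg (AL2_det_nonneg hh hc hcv x), AL2_sel hd hc hcv (AL2_argmin_of_grad hd hc hcv x),
      AL2_det, AL2_d1_fun hd, AL2_d2_fun hd,
      AL2_d1 ((AL2_smooth_fderiv hh (1, 0)).differentiable (by simp) x),
      AL2_d2 ((AL2_smooth_fderiv hh (0, 1)).differentiable (by simp) x),
      AL2_d1 ((AL2_smooth_fderiv hh (0, 1)).differentiable (by simp) x),
      AL2_symm hh x (1, 0) (0, 1)]
    simp only [smul_eq_mul]
    ring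

end Pool.Agent.helper41.Sch
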