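import Mathlib

/-!
Schneider's conjecture on the support of mixed area measures, in dimension three.
Definitions: mixed area measures, touching cones and the weak mixed Monge-Ampere form
of functions on the plane.
-/

open scoped Pointwise ContDiff

namespace Pool.Agent.helper41.Sch

/-! ### Convex bodies in three-space -/

/-- Euclidean three-space. -/
abbrev E3 : Type := EuclideanSpace ℝ (Fin 3)

/-- Convex bodies: nonempty compact convex sets. -/
def IsBody (K : Set E3) : Prop := IsCompact K ∧ Convex ℝ K ∧ K.Nonempty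

/-- The support function `h_K(u) = max {⟨x,u⟩ : x ∈ K}`. -/
noncomputable def hE (K : Set E3) (u : E3) : ℝ := sSup ((fun x => inner ℝ x u) '' K)

/-- The volume. -/
noncomputable def vol (K : Set E3) : ℝ := (MeasureTheory.volume K).toReal

/-- The mixed volume, by polarization. -/
noncomputable def V3 (A B C : Set E3) : ℝ :=
  (vol (A + B + C) - vol (A + B) - vol (A + C) - vol (B + C) + vol A + vol B + vol C) / 6

/-- `S` is the mixed area measure of `K` and `L`: a finite Borel measure on the unit sphere with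
`V(M,K,L) = (1/3) ∫ h_M dS` for all convex bodies `M`. -/
def IsMixedArea (K L : Set E3) (S : MeasureTheory.Measure E3) : Prop :=
  MeasureTheory.IsFiniteMeasure S ∧ S (Metric.sphere (0 : E3) 1)ᶜ = 0 ∧
    ∀ M, IsBody M → V3 M K L = (1 / 3) * ∫ u, hE M u ∂S

/-- The normal cone of `C` at `x`. -/
def normalCone (C : Set E3) (x : E3) : Set E3 := {v | ∀ y ∈ C, inner ℝ v (y - x) ≤ 0}

/-- `T` is the touching cone of `C` at `u`: a face of one of the normal cones of `C` that contains
`u` in its relative interior. -/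
def IsTouchingCone (C : Set E3) (u : E3) (T : Set E3) : Prop :=
  (∃ x ∈ C, IsExtreme ℝ (normalCone C x) T) ∧ Convex ℝ T ∧ u ∈ intrinsicInterior ℝ T

/-- The dimension of the orthogonal complement of (the span of) the touching cone of `C` at `u`
is at least `k`. -/
def DimPerpGE (C : Set E3) (u : E3) (k : ℕ) : Prop :=
  ∃ T, IsTouchingCone C u T ∧ k ≤ Module.finrank ℝ (Submodule.span ℝ T)ᗮ

/-- The `(K,L)`-extreme directions. -/
def extremeDirections (K L : Set E3) : Set E3 :=
  {u | u ∈ Metric.sphere (0 : E3) 1 ∧ DimPerpGE K u 1 ∧ DimPerpGE L u 1 ∧ DimPerpGE (K + L) u 2}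

/-- The second difference of `h` at `u` in the direction `v` vanishes for small steps. -/
def FlatE (h : E3 → ℝ) (u v : E3) : Prop := ∃ ε > (0 : ℝ), h (u + ε • v) + h (u - ε • v) = 2 * h u

/-! ### Functions on the plane -/

/-- The plane. -/
abbrev P : Type := ℝ × ℝ

/-- The standard pairing. -/
def dot (p y : P) : ℝ := p.1 * y.1 + p.2 * y.2

/-- Partial derivative in the first variable. -/
noncomputable def d1 (f : P → ℝ) (x : P) : ℝ := lineDeriv ℝ f x ((1 : ℝ), (0 : ℝ))

/-- Partial derivative in the second variable. -/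
noncomputable def d2 (f : P → ℝ) (x : P) : ℝ := lineDeriv ℝ f x ((0 : ℝ), (1 : ℝ))

/-- The weak form of `∫ φ (f₁₁ g₂₂ + f₂₂ g₁₁ - 2 f₁₂ g₁₂) / 2`. -/
noncomputable def B (φ f g : P → ℝ) : ℝ :=
  (1 / 2) * ∫ x, ((d1 f x * d2 g x + d2 f x * d1 g x) * d1 (d2 φ) x
    - d1 f x * d1 g x * d2 (d2 φ) x - d2 f x * d2 g x * d1 (d1 φ) x)

/-- Smooth functions with compact support. -/
def Cc (φ : P → ℝ) : Prop := ContDiff ℝ ∞ φ ∧ HasCompactSupport φ

/-- Nonnegative test functions. -/
def Test (φ : P → ℝ) : Prop := Cc φ ∧ ∀ x, 0 ≤ φ x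

/-- Lipschitz functions. -/
def Lip (f : P → ℝ) : Prop := ∃ K, LipschitzWith K f

/-- Convex Lipschitz functions. -/
def LC (f : P → ℝ) : Prop := ConvexOn ℝ Set.univ f ∧ Lip f

/-- The second difference of `f` at `y` in the direction `v` vanishes for small steps. -/
def FlatAt (f : P → ℝ) (y v : P) : Prop := ∃ ε > (0 : ℝ), f (y + ε • v) + f (y - ε • v) = 2 * f y

/-- Convex conjugate (with junk value `0` where it is infinite). -/
noncomputable def conj (f : P → ℝ) (p : P) : ℝ := ⨆ y, (dot p y - f y)

/-- `y` minimizes `f - ⟨p, ·⟩`. -/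
def IsArgmin (f : P → ℝ) (p y : P) : Prop := ∀ z, f y - dot p y ≤ f z - dot p z

/-- The value of `φ` at the minimizer of `f - ⟨p, ·⟩` (`0` if there is none). -/
noncomputable def sel (φ f : P → ℝ) (p : P) : ℝ := sSup (φ '' {y | IsArgmin f p y})

/-! ### Bodies in `P × ℝ` -/

/-- The support function of a set in `P × ℝ`. -/
noncomputable def H (A : Set (P × ℝ)) (y : P) (s : ℝ) : ℝ :=
  sSup ((fun x : P × ℝ => dot x.1 y + x.2 * s) '' A)

/-- Its restriction to the plane at height one. -/
noncomputable def F (A : Set (P × ℝ)) (y : P) : ℝ := H A y 1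

/-- Convex bodies in `P × ℝ`. -/
def Body (A : Set (P × ℝ)) : Prop := IsCompact A ∧ Convex ℝ A ∧ A.Nonempty

/-- The function on the upper half space with restriction `φ` to the plane at height one. -/
noncomputable def tilde (φ : P → ℝ) (y : P) (s : ℝ) : ℝ :=
  if 0 < s then s * φ (s⁻¹ • y) else 0

/-! ### Charts -/

/-- The support function of `K` in the chart given by an orthonormal basis. -/
noncomputable def chart (b : OrthonormalBasis (Fin 3) ℝ E3) (K : Set E3) (y : P) : ℝ :=
  hE K (y.1 • b 0 + y.2 • b 1 + b 2)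

/-- The chart coordinates of three-space. -/
noncomputable def coord (b : OrthonormalBasis (Fin 3) ℝ E3) (v : E3) : P × ℝ :=
  ((inner ℝ (b 0) v, inner ℝ (b 1) v), inner ℝ (b 2) v)

/-- The function `tilde φ` on three-space. -/
noncomputable def lift (b : OrthonormalBasis (Fin 3) ℝ E3) (φ : P → ℝ) (v : E3) : ℝ :=
  tilde φ (coord b v).1 (coord b v).2

end Pool.Agent.helper41.Sch
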